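import Pool.Agent.W915.Cdh
import Pool.Agent.W915.Space

/-!
# Consistently, there is a small crowded Baire countable dense homogeneous space

Some notion of forcing `P` preserves all cardinals and forces the combinatorial statement
`SmallCDH I`: the set `I` cannot be mapped onto the power set of `ℕ`, and there is a family of
pairwise different points of the Cantor set, indexed by `I`, which is dense, Baire and countable
dense homogeneous (by isometries). In ZFC this statement gives a dense subspace of the Cantor set
without isolated points which is Baire, countable dense homogeneous and of size less than the
continuum. So it is consistent that such a space exists.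

A sentence of the forcing language is the set of the conditions which force it; a name for a
subset of a ground model set `X` is a map sending `x` to a set of conditions, and `meets N` says
that the generic filter meets `N`. `SmallCDHN P I` is the literal translation of `SmallCDH I`.
-/

set_option autoImplicit false

namespace Pool.Agent.Results.MP_3181e1_lc.SmallSpace

open Cardinal Pool.Agent.Helper669.Forcing Pool.Agent.W915

theorem result :
    (∃ (P : Type) (_ : Preorder P) (I : Type), Nonempty P ∧ ∀ p : P,
      p ∈ CardinalsPreserved.{0, 0} P ∧ p ∈ SmallCDHN P I) ∧
    ∀ I : Type, SmallCDH I →
      ∃ X : Set (ℕ → Bool), Dense X ∧ (∀ y : X, ¬ IsOpen ({y} : Set X)) ∧ BaireSpace X ∧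
        IsCDH X ∧ #X < 𝔠 := by
  refine ⟨?_, fun I h => exists_space h⟩
  obtain ⟨P, inst, hne, hP⟩ := exists_forcing
  exact ⟨P, inst, Pt, hne, hP⟩

end Pool.Agent.Results.MP_3181e1_lc.SmallSpace
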